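import Mathlib

open Filter Topology Set

namespace Pool.Agent.Results.MP_75022b_an.NotMonotone

noncomputable section

/-- Kummer's confluent hypergeometric function `M(a,b,z)`. -/
def kummerM (a b z : ℂ) : ℂ :=
  ∑' k : ℕ, (ascPochhammer ℂ k).eval a / (ascPochhammer ℂ k).eval b * (z ^ k / (k.factorial : ℂ))

/-- The Gamow constant `C_L(η)`. -/
def gamow (L η : ℝ) : ℝ :=
  2 ^ L * Real.exp (-(Real.pi * η) / 2) * ‖Complex.Gamma (L + 1 + η * Complex.I)‖ /
    Real.Gamma (2 * L + 2)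

/-- The regular Coulomb wave function `F_{L,η}(ρ)`. -/
def coulombF (L η ρ : ℝ) : ℂ :=
  (gamow L η : ℂ) * ((ρ ^ (L + 1) : ℝ) : ℂ) * Complex.exp (-(Complex.I * ρ)) *
    kummerM (L + 1 - Complex.I * η) (2 * L + 2) (2 * Complex.I * ρ)

/-- `ρ` is the `n`-th positive zero of `F_{L,η}` (`n ≥ 1`): it is a positive zero and there are
exactly `n - 1` zeros in `(0, ρ)`. -/
def IsNthZero (L η : ℝ) (n : ℕ) (ρ : ℝ) : Prop :=
  0 < ρ ∧ coulombF L η ρ = 0 ∧ 1 ≤ n ∧ {x : ℝ | 0 < x ∧ x < ρ ∧ coulombF L η x = 0}.encard = (n - 1 : ℕ)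

/-! ### The real series -/

/-- coefficients of the real power series -/
def A (L η : ℝ) : ℕ → ℝ
  | 0 => 1
  | 1 => 2 * η / (2 * L + 2)
  | (k + 2) => (2 * η * A L η (k + 1) - A L η k) / (((k : ℝ) + 2) * ((k : ℝ) + 2 + 2 * L + 1))

/-- the real series -/
def phi (L η x : ℝ) : ℝ := ∑' k : ℕ, A L η k * x ^ k

/-- coefficients of Kummer's series -/
def cK (a b : ℂ) (k : ℕ) : ℂ :=
  (ascPochhammer ℂ k).eval a / (ascPochhammer ℂ k).eval b * ((2 * Complex.I) ^ k / (k.factorial : ℂ))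

/-- coefficients of the exponential -/
def cE (k : ℕ) : ℂ := (-Complex.I) ^ k / (k.factorial : ℂ)

lemma poch_ne {b : ℂ} (hb : ∀ k : ℕ, b + k ≠ 0) (k : ℕ) : (ascPochhammer ℂ k).eval b ≠ 0 := by
  induction k with
  | zero => simp
  | succ k ih =>
    rw [ascPochhammer_succ_eval]
    exact mul_ne_zero ih (hb k)

lemma b_ne {L : ℝ} (hL : -1 < L) (k : ℕ) : (2 * (L : ℂ) + 2 + k) ≠ 0 := by
  intro h
  have h1 := congrArg Complex.re h
  simp at h1
  have : (0 : ℝ) ≤ k := Nat.cast_nonneg k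
  linarith

lemma cK_succ {a b : ℂ} (hb : ∀ k : ℕ, b + k ≠ 0) (k : ℕ) :
    ((k : ℂ) + 1) * (b + k) * cK a b (k + 1) = 2 * Complex.I * (a + k) * cK a b k := by
  have h1 := poch_ne hb k
  have h2 := hb k
  have h3 : ((k.factorial : ℕ) : ℂ) ≠ 0 := by exact_mod_cast k.factorial_ne_zero
  have h4 : ((k : ℂ) + 1) ≠ 0 := by exact_mod_cast Nat.succ_ne_zero k
  unfold cK
  rw [ascPochhammer_succ_eval, ascPochhammer_succ_eval, Nat.factorial_succ, pow_succ]
  push_cast
  field_simp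

/-- the formal series -/
def fK (a b : ℂ) : PowerSeries ℂ := PowerSeries.mk (cK a b)
/-- the formal exponential -/
def fE : PowerSeries ℂ := PowerSeries.mk cE

lemma deriv_fE : PowerSeries.derivative ℂ fE = -(PowerSeries.C Complex.I) * fE := by
  ext n
  have h := PowerSeries.coeff_derivative fE n
  rw [h, neg_mul, map_neg, PowerSeries.coeff_C_mul]
  simp only [fE, PowerSeries.coeff_mk, cE]
  rw [Nat.factorial_succ, pow_succ]
  push_cast
  have h3 : ((n.factorial : ℕ) : ℂ) ≠ 0 := by exact_mod_cast n.factorial_ne_zero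
  have h4 : ((n : ℂ) + 1) ≠ 0 := by exact_mod_cast Nat.succ_ne_zero n
  field_simp

/-- formal Kummer equation -/
lemma kummer_ode {a b : ℂ} (hb : ∀ k : ℕ, b + k ≠ 0) :
    PowerSeries.X * PowerSeries.derivative ℂ (PowerSeries.derivative ℂ (fK a b)) +
      PowerSeries.C b * PowerSeries.derivative ℂ (fK a b) =
    PowerSeries.C (2 * Complex.I) * (PowerSeries.C a * fK a b +
      PowerSeries.X * PowerSeries.derivative ℂ (fK a b)) := by
  ext n
  have h := cK_succ (a := a) hb n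
  cases n with
  | zero =>
    rw [map_add, PowerSeries.coeff_C_mul, PowerSeries.coeff_C_mul, map_add,
      PowerSeries.coeff_C_mul, mul_comm PowerSeries.X, PowerSeries.coeff_zero_mul_X,
      mul_comm PowerSeries.X, PowerSeries.coeff_zero_mul_X, PowerSeries.coeff_derivative]
    simp only [fK, PowerSeries.coeff_mk]
    simp only [Nat.cast_zero, zero_add, one_mul, add_zero, mul_one] at h ⊢
    linear_combination h
  | succ n =>
    rw [map_add, PowerSeries.coeff_C_mul, PowerSeries.coeff_C_mul, map_add,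
      PowerSeries.coeff_C_mul, mul_comm PowerSeries.X, PowerSeries.coeff_succ_mul_X,
      mul_comm PowerSeries.X, PowerSeries.coeff_succ_mul_X, PowerSeries.coeff_derivative,
      PowerSeries.coeff_derivative, PowerSeries.coeff_derivative]
    simp only [fK, PowerSeries.coeff_mk]
    push_cast at h ⊢
    linear_combination h

/-- the product series -/
def fW (a b : ℂ) : PowerSeries ℂ := fE * fK a b

lemma w_ode {a b : ℂ} (hb : ∀ k : ℕ, b + k ≠ 0) :
    PowerSeries.X * PowerSeries.derivative ℂ (PowerSeries.derivative ℂ (fW a b)) +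
      PowerSeries.C b * PowerSeries.derivative ℂ (fW a b) +
      PowerSeries.X * fW a b + PowerSeries.C (Complex.I * (b - 2 * a)) * fW a b = 0 := by
  have h := kummer_ode (a := a) hb
  have hE := deriv_fE
  have d1 : PowerSeries.derivative ℂ (fW a b) = -(PowerSeries.C Complex.I) * fW a b +
      fE * PowerSeries.derivative ℂ (fK a b) := by
    rw [fW, Derivation.leibniz, hE]
    simp only [smul_eq_mul]
    ring
  have dCI : PowerSeries.derivative ℂ (PowerSeries.C Complex.I : PowerSeries ℂ) = 0 :=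
    PowerSeries.derivative_C
  have d2 : PowerSeries.derivative ℂ (PowerSeries.derivative ℂ (fW a b)) =
      -(PowerSeries.C Complex.I) * PowerSeries.derivative ℂ (fW a b) +
      (-(PowerSeries.C Complex.I) * fE * PowerSeries.derivative ℂ (fK a b) +
      fE * PowerSeries.derivative ℂ (PowerSeries.derivative ℂ (fK a b))) := by
    conv_lhs => rw [d1]
    rw [map_add, Derivation.leibniz (PowerSeries.derivative ℂ) (-(PowerSeries.C Complex.I)),
      Derivation.leibniz (PowerSeries.derivative ℂ) fE, map_neg, dCI, hE]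
    simp only [smul_eq_mul]
    ring
  have hI : (PowerSeries.C Complex.I : PowerSeries ℂ) * PowerSeries.C Complex.I = -1 := by
    rw [← map_mul, Complex.I_mul_I]; simp
  have h2 : (PowerSeries.C (2 * Complex.I) : PowerSeries ℂ) = 2 * PowerSeries.C Complex.I := by
    rw [map_mul, map_ofNat]
  have h3 : (PowerSeries.C (Complex.I * (b - 2 * a)) : PowerSeries ℂ) =
      PowerSeries.C Complex.I * (PowerSeries.C b - 2 * PowerSeries.C a) := by
    rw [map_mul, map_sub, map_mul, map_ofNat]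
  rw [h2] at h
  rw [d2, d1, h3, fW]
  linear_combination fE * h + (PowerSeries.X * fE * fK a b) * hI

lemma w_coeff {L η : ℝ} (hL : -1 < L) (k : ℕ) :
    PowerSeries.coeff k (fW ((L : ℂ) + 1 - Complex.I * η) (2 * (L : ℂ) + 2)) = (A L η k : ℂ) := by
  set a : ℂ := (L : ℂ) + 1 - Complex.I * η with ha
  set b : ℂ := 2 * (L : ℂ) + 2 with hb
  have hbn : ∀ k : ℕ, b + k ≠ 0 := b_ne hL
  have hode := w_ode (a := a) hbn
  have hc : Complex.I * (b - 2 * a) = -(2 * η) := by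
    rw [ha, hb]
    linear_combination (2 * (η : ℂ)) * Complex.I_mul_I
  rw [hc] at hode
  have w0 : PowerSeries.coeff 0 (fW a b) = 1 := by
    rw [fW, PowerSeries.coeff_zero_eq_constantCoeff_apply, map_mul,
      ← PowerSeries.coeff_zero_eq_constantCoeff_apply, ← PowerSeries.coeff_zero_eq_constantCoeff_apply,
      fE, fK, PowerSeries.coeff_mk, PowerSeries.coeff_mk]
    simp [cE, cK]
  have w1 : b * PowerSeries.coeff 1 (fW a b) = 2 * η * PowerSeries.coeff 0 (fW a b) := by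
    have h := congrArg (PowerSeries.coeff 0) hode
    rw [map_add, map_add, map_add, PowerSeries.coeff_C_mul, PowerSeries.coeff_C_mul,
      mul_comm PowerSeries.X, PowerSeries.coeff_zero_mul_X, mul_comm PowerSeries.X,
      PowerSeries.coeff_zero_mul_X, PowerSeries.coeff_derivative, map_zero] at h
    simp only [Nat.cast_zero, zero_add, mul_one] at h
    linear_combination h
  have w2 : ∀ n : ℕ, ((n : ℂ) + 2) * (b + n + 1) * PowerSeries.coeff (n + 2) (fW a b) =
      2 * η * PowerSeries.coeff (n + 1) (fW a b) - PowerSeries.coeff n (fW a b) := by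
    intro n
    have h := congrArg (PowerSeries.coeff (n + 1)) hode
    rw [map_add, map_add, map_add, PowerSeries.coeff_C_mul, PowerSeries.coeff_C_mul,
      mul_comm PowerSeries.X, PowerSeries.coeff_succ_mul_X, mul_comm PowerSeries.X,
      PowerSeries.coeff_succ_mul_X, PowerSeries.coeff_derivative, PowerSeries.coeff_derivative,
      map_zero] at h
    push_cast at h
    linear_combination h
  induction k using Nat.strong_induction_on with
  | _ k ih =>
    match k, ih with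
    | 0, _ => rw [w0]; simp [A]
    | 1, _ =>
      rw [w0] at w1
      have hb0 : b ≠ 0 := by simpa using hbn 0
      have : PowerSeries.coeff 1 (fW a b) = 2 * η / b := by
        rw [eq_div_iff hb0]; linear_combination w1
      rw [this, A, hb]
      push_cast; ring
    | (n + 2), ih =>
      have h := w2 n
      rw [ih (n + 1) (by omega), ih n (by omega)] at h
      have hn1 : ((n : ℂ) + 2) ≠ 0 := by
        intro h0
        have := congrArg Complex.re h0
        simp at this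
        have h2 : (0 : ℝ) ≤ n := Nat.cast_nonneg n
        linarith
      have hn2 : b + n + 1 ≠ 0 := by
        have := hbn (n + 1)
        push_cast at this
        rwa [← add_assoc] at this
      have e : ((n : ℂ) + 2 + 2 * L + 1) = b + n + 1 := by rw [hb]; ring
      rw [A]
      push_cast
      rw [e, eq_div_iff (mul_ne_zero hn1 hn2)]
      linear_combination h

lemma summable_cE (ρ : ℝ) : Summable fun k : ℕ => ‖cE k * (ρ : ℂ) ^ k‖ := by
  have h := Real.summable_pow_div_factorial |ρ|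
  refine h.congr fun k => ?_
  simp only [cE]
  rw [norm_mul, norm_div, norm_pow, norm_pow, norm_neg, Complex.norm_I, one_pow,
    Complex.norm_natCast, Complex.norm_real, Real.norm_eq_abs]
  ring

lemma summable_cK {L : ℝ} (hL : -1 < L) (η ρ : ℝ) :
    Summable fun k : ℕ => ‖cK ((L : ℂ) + 1 - Complex.I * η) (2 * (L : ℂ) + 2) k * (ρ : ℂ) ^ k‖ := by
  set a : ℂ := (L : ℂ) + 1 - Complex.I * η with ha
  set b : ℂ := 2 * (L : ℂ) + 2 with hb
  rw [summable_norm_iff]
  apply summable_of_ratio_norm_eventually_le (r := 1 / 2) (by norm_num)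
  obtain ⟨N, hN⟩ := exists_nat_ge (4 * (‖a‖ + 1) * |ρ|)
  filter_upwards [eventually_ge_atTop (N + 1)] with k hk
  have hk1 : (1 : ℝ) ≤ k := by exact_mod_cast (by omega : 1 ≤ k)
  have hkN : (N : ℝ) ≤ k := by exact_mod_cast (by omega : N ≤ k)
  have hbk : (k : ℝ) ≤ ‖b + k‖ := by
    refine le_trans ?_ (Complex.re_le_norm _)
    rw [hb]
    simp
    linarith
  have hak : ‖a + k‖ ≤ ‖a‖ + k := by
    refine (norm_add_le _ _).trans (by simp)
  have hrec := cK_succ (a := a) (b_ne hL) k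
  have hn := congrArg norm hrec
  rw [norm_mul, norm_mul, norm_mul, norm_mul, norm_mul, Complex.norm_I, mul_one] at hn
  have h1 : ‖(k : ℂ) + 1‖ = (k : ℝ) + 1 := by
    have : ((k : ℂ) + 1) = ((k + 1 : ℕ) : ℂ) := by push_cast; ring
    rw [this, Complex.norm_natCast]; push_cast; ring
  have h2 : ‖(2 : ℂ)‖ = 2 := by simp
  rw [h1, h2, ← hb] at hn
  rw [norm_mul, norm_mul, norm_pow, norm_pow, Complex.norm_real, Real.norm_eq_abs, pow_succ]
  set c0 := ‖cK a b k‖ with hc0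
  set c1 := ‖cK a b (k + 1)‖ with hc1
  have hc0n : 0 ≤ c0 := norm_nonneg _
  have hc1n : 0 ≤ c1 := norm_nonneg _
  -- (k+1) * k * c1 ≤ 2 (‖a‖+k) c0
  have h3 : ((k : ℝ) + 1) * k * c1 ≤ 2 * (‖a‖ + k) * c0 := by
    calc ((k : ℝ) + 1) * k * c1 ≤ ((k : ℝ) + 1) * ‖b + k‖ * c1 := by gcongr
      _ = 2 * ‖a + k‖ * c0 := hn
      _ ≤ _ := by gcongr
  have h4 : ‖a‖ + k ≤ (‖a‖ + 1) * k := by nlinarith [norm_nonneg a]
  have h5 : ((k : ℝ) + 1) * k * c1 ≤ 2 * ((‖a‖ + 1) * k) * c0 := by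
    refine h3.trans ?_
    gcongr
  have hk0 : (0 : ℝ) < k := by linarith
  have h6 : ((k : ℝ) + 1) * c1 ≤ 2 * (‖a‖ + 1) * c0 := by
    have : k * (((k : ℝ) + 1) * c1) ≤ k * (2 * (‖a‖ + 1) * c0) := by linarith
    exact le_of_mul_le_mul_left this hk0
  have hρ : 0 ≤ |ρ| := abs_nonneg ρ
  have h7 : ((k : ℝ) + 1) * (c1 * |ρ|) ≤ ((k : ℝ) + 1) * (1 / 2 * c0) := by
    have e1 : ((k : ℝ) + 1) * (c1 * |ρ|) ≤ 2 * (‖a‖ + 1) * c0 * |ρ| := by
      have := mul_le_mul_of_nonneg_right h6 hρ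
      linarith
    have e2 : 4 * (‖a‖ + 1) * |ρ| * c0 ≤ ((k : ℝ) + 1) * c0 := by
      apply mul_le_mul_of_nonneg_right _ hc0n
      linarith
    linarith
  have h8 : c1 * |ρ| ≤ 1 / 2 * c0 := le_of_mul_le_mul_left h7 (by linarith)
  have hpk : 0 ≤ |ρ| ^ k := by positivity
  have := mul_le_mul_of_nonneg_right h8 hpk
  calc c1 * (|ρ| ^ k * |ρ|) = c1 * |ρ| * |ρ| ^ k := by ring
    _ ≤ 1 / 2 * c0 * |ρ| ^ k := this
    _ = _ := by ring

/-- the Coulomb wave function in terms of the real series -/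
lemma coulombF_eq {L : ℝ} (hL : -1 < L) (η ρ : ℝ) :
    coulombF L η ρ = (gamow L η : ℂ) * ((ρ ^ (L + 1) : ℝ) : ℂ) * (phi L η ρ : ℂ) := by
  set a : ℂ := (L : ℂ) + 1 - Complex.I * η with ha
  set b : ℂ := 2 * (L : ℂ) + 2 with hb
  have hexp : Complex.exp (-(Complex.I * ρ)) = ∑' k : ℕ, cE k * (ρ : ℂ) ^ k := by
    rw [Complex.exp_eq_exp_ℂ, NormedSpace.exp_eq_tsum_div]
    apply tsum_congr
    intro k
    rw [cE, show -(Complex.I * ρ) = -Complex.I * ρ by ring, mul_pow]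
    ring
  have hkum : kummerM a b (2 * Complex.I * ρ) = ∑' k : ℕ, cK a b k * (ρ : ℂ) ^ k := by
    unfold kummerM
    apply tsum_congr
    intro k
    rw [cK, mul_pow]
    ring
  have hprod := tsum_mul_tsum_eq_tsum_sum_antidiagonal_of_summable_norm
    (summable_cE ρ) (summable_cK hL η ρ)
  have hcoef : ∀ n : ℕ, ∑ kl ∈ Finset.HasAntidiagonal.antidiagonal n,
      cE kl.1 * (ρ : ℂ) ^ kl.1 * (cK a b kl.2 * (ρ : ℂ) ^ kl.2) = ((A L η n * ρ ^ n : ℝ) : ℂ) := by
    intro n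
    have h := w_coeff (η := η) hL n
    rw [fW, PowerSeries.coeff_mul] at h
    simp only [fE, fK, PowerSeries.coeff_mk] at h
    push_cast
    rw [← h, Finset.sum_mul]
    apply Finset.sum_congr rfl
    rintro ⟨i, j⟩ hij
    have : i + j = n := Finset.HasAntidiagonal.mem_antidiagonal.1 hij
    simp only
    rw [← this, pow_add]
    ring
  have hphi : Complex.exp (-(Complex.I * ρ)) * kummerM a b (2 * Complex.I * ρ) = (phi L η ρ : ℂ) := by
    rw [hexp, hkum, hprod, phi, Complex.ofReal_tsum]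
    exact tsum_congr hcoef
  unfold coulombF
  rw [mul_assoc, hphi]

lemma gamow_ne {L : ℝ} (hL : -1 < L) (η : ℝ) : gamow L η ≠ 0 := by
  unfold gamow
  have h1 : ‖Complex.Gamma (L + 1 + η * Complex.I)‖ ≠ 0 := by
    rw [norm_ne_zero_iff]
    apply Complex.Gamma_ne_zero_of_re_pos
    simp
    linarith
  have h2 : Real.Gamma (2 * L + 2) ≠ 0 := (Real.Gamma_pos_of_pos (by linarith)).ne'
  have h3 : (2 : ℝ) ^ L ≠ 0 := by positivity
  have h4 := Real.exp_ne_zero (-(Real.pi * η) / 2)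
  exact div_ne_zero (mul_ne_zero (mul_ne_zero h3 h4) h1) h2

lemma zero_iff {L : ℝ} (hL : -1 < L) (η : ℝ) {ρ : ℝ} (hρ : 0 < ρ) :
    coulombF L η ρ = 0 ↔ phi L η ρ = 0 := by
  rw [coulombF_eq hL]
  have h1 : (gamow L η : ℂ) ≠ 0 := by exact_mod_cast gamow_ne hL η
  have h2 : ((ρ ^ (L + 1) : ℝ) : ℂ) ≠ 0 := by
    exact_mod_cast (Real.rpow_pos_of_pos hρ _).ne'
  constructor
  · intro h
    have := (mul_eq_zero.1 h).resolve_left (mul_ne_zero h1 h2)
    exact_mod_cast this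
  · intro h
    rw [h]; simp

/-! ### Numerical estimates -/

lemma A_rec (L η : ℝ) (hL : -1 < L) (k : ℕ) :
    ((k : ℝ) + 2) * ((k : ℝ) + 2 + 2 * L + 1) * A L η (k + 2) = 2 * η * A L η (k + 1) - A L η k := by
  have h1 : (0 : ℝ) ≤ k := Nat.cast_nonneg k
  have h2 : ((k : ℝ) + 2) ≠ 0 := by positivity
  have h3 : ((k : ℝ) + 2 + 2 * L + 1) ≠ 0 := by
    have : 0 < (k : ℝ) + 2 + 2 * L + 1 := by linarith
    exact this.ne'
  rw [A]
  field_simp

lemma A_bound {L M : ℝ} (hL : -1 < L) (hM : 0 ≤ M) (h10 : |A L (1 / 20) 10| ≤ M)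
    (h11 : |A L (1 / 20) 11| ≤ M / 7) (k : ℕ) : |A L (1 / 20) (10 + k)| ≤ M / 7 ^ k := by
  have key : ∀ k : ℕ, |A L (1 / 20) (10 + k)| ≤ M / 7 ^ k ∧
      |A L (1 / 20) (10 + k + 1)| ≤ M / 7 ^ (k + 1) := by
    intro k
    induction k with
    | zero => exact ⟨by simpa using h10, by simpa using h11⟩
    | succ k ih =>
      refine ⟨ih.2, ?_⟩
      have hrec := A_rec L (1 / 20) hL (10 + k)
      push_cast at hrec
      set B := A L (1 / 20) (10 + (k + 1) + 1) with hB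
      have hB' : A L (1 / 20) (10 + k + 2) = B := rfl
      rw [hB'] at hrec
      have hk : (0 : ℝ) ≤ k := Nat.cast_nonneg k
      have hc : (100 : ℝ) ≤ ((10 + (k : ℝ)) + 2) * ((10 + (k : ℝ)) + 2 + 2 * L + 1) := by
        nlinarith
      have habs : ((10 + (k : ℝ)) + 2) * ((10 + (k : ℝ)) + 2 + 2 * L + 1) * |B| ≤
          1 / 10 * (M / 7 ^ (k + 1)) + M / 7 ^ k := by
        rw [← abs_of_nonneg (by linarith : 0 ≤ ((10 + (k : ℝ)) + 2) *
          ((10 + (k : ℝ)) + 2 + 2 * L + 1)), ← abs_mul, hrec]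
        refine (abs_sub _ _).trans ?_
        rw [abs_mul]
        have : |(2 * (1 / 20) : ℝ)| = 1 / 10 := by norm_num
        rw [this]
        linarith [ih.1, ih.2]
      have h1 : 100 * |B| ≤ 1 / 10 * (M / 7 ^ (k + 1)) + M / 7 ^ k := by
        refine le_trans ?_ habs
        exact mul_le_mul_of_nonneg_right hc (abs_nonneg _)
      have e1 : M / 7 ^ k = 49 * (M / 7 ^ (k + 1 + 1)) := by
        rw [pow_succ, pow_succ]; field_simp; ring
      have e2 : M / 7 ^ (k + 1) = 7 * (M / 7 ^ (k + 1 + 1)) := by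
        rw [pow_succ _ (k + 1)]; field_simp
      rw [e1, e2] at h1
      have : 0 ≤ M / 7 ^ (k + 1 + 1) := by positivity
      linarith
  exact (key k).1

lemma A_summable {L M : ℝ} (hL : -1 < L) (hM : 0 ≤ M) (h10 : |A L (1 / 20) 10| ≤ M)
    (h11 : |A L (1 / 20) 11| ≤ M / 7) {x : ℝ} (hx0 : 0 ≤ x) (hx : x < 7) :
    Summable fun k : ℕ => |A L (1 / 20) k| * x ^ k := by
  rw [← summable_nat_add_iff 10]
  have hg : Summable fun k : ℕ => M * x ^ 10 * (x / 7) ^ k :=
    (summable_geometric_of_lt_one (by positivity) (by linarith)).mul_left _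
  refine Summable.of_nonneg_of_le (fun k => by positivity) (fun k => ?_) hg
  have := A_bound hL hM h10 h11 k
  rw [add_comm k 10, pow_add, div_pow]
  calc |A L (1 / 20) (10 + k)| * (x ^ 10 * x ^ k) ≤ M / 7 ^ k * (x ^ 10 * x ^ k) := by gcongr
    _ = _ := by ring

lemma phi_tail {L M : ℝ} (hL : -1 < L) (hM : 0 ≤ M) (h10 : |A L (1 / 20) 10| ≤ M)
    (h11 : |A L (1 / 20) 11| ≤ M / 7) {x : ℝ} (hx0 : 0 ≤ x) (hx : x ≤ 7 / 2) :
    |phi L (1 / 20) x - ∑ k ∈ Finset.range 10, A L (1 / 20) k * x ^ k| ≤ 2 * M * x ^ 10 := by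
  have hs := A_summable hL hM h10 h11 hx0 (by linarith)
  have hs' : Summable fun k : ℕ => A L (1 / 20) k * x ^ k := by
    apply Summable.of_norm
    refine hs.congr fun k => ?_
    rw [norm_mul, Real.norm_eq_abs, Real.norm_eq_abs, abs_of_nonneg (pow_nonneg hx0 k)]
  have hsplit := hs'.sum_add_tsum_nat_add 10
  have e : phi L (1 / 20) x - ∑ k ∈ Finset.range 10, A L (1 / 20) k * x ^ k =
      ∑' k : ℕ, A L (1 / 20) (k + 10) * x ^ (k + 10) := by
    rw [phi, ← hsplit]; ring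
  rw [e]
  have hg : HasSum (fun k : ℕ => M * x ^ 10 * (1 / 2 : ℝ) ^ k) (M * x ^ 10 * 2) :=
    hasSum_geometric_two.mul_left _
  have hb := tsum_of_norm_bounded
    (f := fun k : ℕ => A L (1 / 20) (k + 10) * x ^ (k + 10)) hg (fun k => ?_)
  · rw [Real.norm_eq_abs] at hb
    linarith
  · have := A_bound hL hM h10 h11 k
    rw [norm_mul, Real.norm_eq_abs, Real.norm_eq_abs, abs_of_nonneg (pow_nonneg hx0 _),
      add_comm k 10, pow_add]
    have h1 : x ^ k ≤ (7 / 2) ^ k := by gcongr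
    calc |A L (1 / 20) (10 + k)| * (x ^ 10 * x ^ k) ≤ M / 7 ^ k * (x ^ 10 * (7 / 2) ^ k) := by gcongr
      _ = M * x ^ 10 * (1 / 2) ^ k := by
        rw [div_pow, div_pow, one_pow]
        field_simp

lemma phi_continuousOn {L M : ℝ} (hL : -1 < L) (hM : 0 ≤ M) (h10 : |A L (1 / 20) 10| ≤ M)
    (h11 : |A L (1 / 20) 11| ≤ M / 7) : ContinuousOn (phi L (1 / 20)) (Icc 0 (7 / 2)) := by
  have hs := A_summable hL hM h10 h11 (x := 7 / 2) (by norm_num) (by norm_num)
  unfold phi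
  apply continuousOn_tsum (u := fun k : ℕ => |A L (1 / 20) k| * (7 / 2) ^ k)
  · intro k
    fun_prop
  · exact hs
  · intro k x hx
    rw [norm_mul, Real.norm_eq_abs, Real.norm_eq_abs, abs_of_nonneg (pow_nonneg hx.1 _)]
    gcongr
    · exact hx.1
    · exact hx.2

lemma phi_zero (L η : ℝ) : phi L η 0 = 1 := by
  unfold phi
  rw [tsum_eq_single 0]
  · simp [A]
  · intro k hk
    simp [hk]

/-- least zero of a continuous function -/
lemma first_zero {f : ℝ → ℝ} {b : ℝ} (hb : 0 < b) (hf : ContinuousOn f (Icc 0 b)) (h0 : 0 < f 0)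
    (h1 : f b < 0) : ∃ ρ, 0 < ρ ∧ ρ < b ∧ f ρ = 0 ∧ ∀ x, 0 < x → x < ρ → f x ≠ 0 := by
  set Z : Set ℝ := Icc 0 b ∩ f ⁻¹' {0} with hZ
  have hZc : IsCompact Z := by
    apply isCompact_Icc.of_isClosed_subset _ inter_subset_left
    exact hf.preimage_isClosed_of_isClosed isClosed_Icc isClosed_singleton
  have hZne : Z.Nonempty := by
    have := intermediate_value_Icc' hb.le hf
    obtain ⟨c, hc, hfc⟩ := this ⟨h1.le, h0.le⟩
    exact ⟨c, hc, hfc⟩
  obtain ⟨ρ, hρ, hmin⟩ := hZc.exists_isLeast hZne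
  have hρ0 : ρ ≠ 0 := by
    rintro rfl
    have : f 0 = 0 := hρ.2
    linarith
  have hρb : ρ ≠ b := by
    rintro rfl
    have : f ρ = 0 := hρ.2
    linarith
  refine ⟨ρ, lt_of_le_of_ne hρ.1.1 hρ0.symm, lt_of_le_of_ne hρ.1.2 hρb, hρ.2, ?_⟩
  intro x hx0 hxρ hfx
  have := hmin ⟨⟨hx0.le, hxρ.le.trans hρ.1.2⟩, hfx⟩
  linarith

lemma isNthZero_of_first {L η ρ : ℝ} (hL : -1 < L) (hρ : 0 < ρ) (h : phi L η ρ = 0)
    (hx : ∀ x, 0 < x → x < ρ → phi L η x ≠ 0) : IsNthZero L η 1 ρ := by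
  refine ⟨hρ, (zero_iff hL η hρ).2 h, le_rfl, ?_⟩
  have : {x : ℝ | 0 < x ∧ x < ρ ∧ coulombF L η x = 0} = ∅ := by
    rw [Set.eq_empty_iff_forall_notMem]
    rintro x ⟨h1, h2, h3⟩
    exact hx x h1 h2 ((zero_iff hL η h1).1 h3)
  rw [this]
  simp

/-- explicit values for `L = -99/100` -/
lemma A1_vals : A (-99 / 100) (1 / 20) 0 = 1 ∧ A (-99 / 100) (1 / 20) 1 = 5 := by
  constructor
  · rfl
  · norm_num [A]

lemma num1 : |A (-99 / 100) (1 / 20) 10| ≤ 9 / 10 ^ 7 ∧ |A (-99 / 100) (1 / 20) 11| ≤ 9 / 10 ^ 7 / 7 := by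
  constructor <;> norm_num [A, abs_le]

lemma num2 : |A (-4 / 5) (1 / 20) 10| ≤ 9 / 10 ^ 7 ∧ |A (-4 / 5) (1 / 20) 11| ≤ 9 / 10 ^ 7 / 7 := by
  constructor <;> norm_num [A, abs_le]

lemma neg1 : phi (-99 / 100) (1 / 20) (7 / 2) < 0 := by
  have h := phi_tail (L := -99 / 100) (M := 9 / 10 ^ 7) (by norm_num) (by norm_num) num1.1 num1.2
    (x := 7 / 2) (by norm_num) le_rfl
  have h2 : ∑ k ∈ Finset.range 10, A (-99 / 100) (1 / 20) k * (7 / 2) ^ k ≤ -2 := by
    norm_num [Finset.sum_range_succ, A]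
  have h3 := (abs_le.1 h).2
  norm_num at h3
  norm_num at h2
  linarith

lemma neg2 : phi (-4 / 5) (1 / 20) (13 / 5) < 0 := by
  have h := phi_tail (L := -4 / 5) (M := 9 / 10 ^ 7) (by norm_num) (by norm_num) num2.1 num2.2
    (x := 13 / 5) (by norm_num) (by norm_num)
  have h2 : ∑ k ∈ Finset.range 10, A (-4 / 5) (1 / 20) k * (13 / 5) ^ k ≤ -1 / 5 := by
    norm_num [Finset.sum_range_succ, A]
  have h3 := (abs_le.1 h).2
  norm_num at h3
  norm_num at h2
  linarith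

lemma pos1 {x : ℝ} (h0 : 0 ≤ x) (h1 : x ≤ 13 / 5) : 0 < phi (-99 / 100) (1 / 20) x := by
  have h := phi_tail (L := -99 / 100) (M := 9 / 10 ^ 7) (by norm_num) (by norm_num) num1.1 num1.2
    (x := x) h0 (by linarith)
  have h3 := (abs_le.1 h).1
  have a0 : A (-99 / 100) (1 / 20) 0 = 1 := A1_vals.1
  have a1 : A (-99 / 100) (1 / 20) 1 = 5 := A1_vals.2
  have a2 : -2452 / 10000 ≤ A (-99 / 100) (1 / 20) 2 := by norm_num [A]
  have a3 : -8292 / 10000 ≤ A (-99 / 100) (1 / 20) 3 := by norm_num [A]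
  have a4 : 134 / 10000 ≤ A (-99 / 100) (1 / 20) 4 := by norm_num [A]
  have a5 : 413 / 10000 ≤ A (-99 / 100) (1 / 20) 5 := by norm_num [A]
  have a6 : -4 / 10000 ≤ A (-99 / 100) (1 / 20) 6 := by norm_num [A]
  have a7 : -10 / 10000 ≤ A (-99 / 100) (1 / 20) 7 := by norm_num [A]
  have a8 : 0 ≤ A (-99 / 100) (1 / 20) 8 := by norm_num [A]
  have a9 : 0 ≤ A (-99 / 100) (1 / 20) 9 := by norm_num [A]
  have p : ∀ k : ℕ, 0 ≤ x ^ k := fun k => pow_nonneg h0 k
  have hsum : 1 + 5 * x - 2452 / 10000 * x ^ 2 - 8292 / 10000 * x ^ 3 + 134 / 10000 * x ^ 4 +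
      413 / 10000 * x ^ 5 - 4 / 10000 * x ^ 6 - 10 / 10000 * x ^ 7 ≤
      ∑ k ∈ Finset.range 10, A (-99 / 100) (1 / 20) k * x ^ k := by
    simp only [Finset.sum_range_succ, Finset.sum_range_zero, a0, a1]
    have b2 := mul_le_mul_of_nonneg_right a2 (p 2)
    have b3 := mul_le_mul_of_nonneg_right a3 (p 3)
    have b4 := mul_le_mul_of_nonneg_right a4 (p 4)
    have b5 := mul_le_mul_of_nonneg_right a5 (p 5)
    have b6 := mul_le_mul_of_nonneg_right a6 (p 6)
    have b7 := mul_le_mul_of_nonneg_right a7 (p 7)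
    have b8 := mul_le_mul_of_nonneg_right a8 (p 8)
    have b9 := mul_le_mul_of_nonneg_right a9 (p 9)
    rw [pow_zero, pow_one]
    linarith
  have hx10 : 2 * (9 / 10 ^ 7) * x ^ 10 ≤ 3 / 100 := by
    have : x ^ 10 ≤ (13 / 5) ^ 10 := by gcongr
    norm_num at this ⊢
    linarith
  set y := x ^ 2 with hy
  have hy0 : 0 ≤ y := p 2
  have hy1 : y ≤ 676 / 100 := by rw [hy]; nlinarith
  have hyx : y ≤ 13 / 5 * x := by rw [hy]; nlinarith
  have ho : 9 / 10 ≤ 5 - 8292 / 10000 * y + 413 / 10000 * y ^ 2 - 10 / 10000 * y ^ 3 := by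
    nlinarith [mul_nonneg hy0 (sub_nonneg.2 hy1), mul_nonneg (mul_nonneg hy0 hy0) (sub_nonneg.2 hy1),
      sq_nonneg (y - 676 / 100)]
  have hxo : 9 / 10 * x ≤ x * (5 - 8292 / 10000 * y + 413 / 10000 * y ^ 2 - 10 / 10000 * y ^ 3) := by
    nlinarith
  have hexp : 1 + 5 * x - 2452 / 10000 * x ^ 2 - 8292 / 10000 * x ^ 3 + 134 / 10000 * x ^ 4 +
      413 / 10000 * x ^ 5 - 4 / 10000 * x ^ 6 - 10 / 10000 * x ^ 7 =
      1 - 2452 / 10000 * y + 134 / 10000 * y ^ 2 - 4 / 10000 * y ^ 3 +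
      x * (5 - 8292 / 10000 * y + 413 / 10000 * y ^ 2 - 10 / 10000 * y ^ 3) := by
    rw [hy]; ring
  have hy3 : y ^ 3 ≤ 310 := by
    have : y ^ 3 ≤ (676 / 100) ^ 3 := by gcongr
    norm_num at this
    linarith
  have hy2 : 0 ≤ y ^ 2 := sq_nonneg y
  nlinarith

/-- The first positive zero of `F_{L,1/20}` is strictly smaller for `L = -4/5` than for
`L = -99/100`: monotonicity in `L` on `(-1, ∞)` fails. -/
theorem result : ∃ (η : ℝ) (n : ℕ) (L₁ L₂ ρ₁ ρ₂ : ℝ), 1 ≤ n ∧ -1 < L₁ ∧ L₁ < L₂ ∧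
    IsNthZero L₁ η n ρ₁ ∧ IsNthZero L₂ η n ρ₂ ∧ ρ₂ < ρ₁ := by
  have c1 := phi_continuousOn (L := -99 / 100) (M := 9 / 10 ^ 7) (by norm_num) (by norm_num)
    num1.1 num1.2
  have c2 := phi_continuousOn (L := -4 / 5) (M := 9 / 10 ^ 7) (by norm_num) (by norm_num)
    num2.1 num2.2
  obtain ⟨ρ₁, h1, h2, h3, h4⟩ := first_zero (b := 7 / 2) (by norm_num) c1
    (by rw [phi_zero]; norm_num) neg1
  obtain ⟨ρ₂, k1, k2, k3, k4⟩ := first_zero (b := 13 / 5) (by norm_num)
    (c2.mono (Icc_subset_Icc_right (by norm_num))) (by rw [phi_zero]; norm_num) neg2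
  refine ⟨1 / 20, 1, -99 / 100, -4 / 5, ρ₁, ρ₂, le_rfl, by norm_num, by norm_num,
    isNthZero_of_first (by norm_num) h1 h3 h4, isNthZero_of_first (by norm_num) k1 k3 k4, ?_⟩
  by_contra hcon
  push Not at hcon
  have := pos1 h1.le (by linarith)
  linarith

end

end Pool.Agent.Results.MP_75022b_an.NotMonotone
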